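import Mathlib

set_option autoImplicit false

open MeasureTheory Set Filter Topology

namespace Pool.Agent.H411Z.XR

/-- the plane (sup norm) -/
abbrev P : Type := ℝ × ℝ

/-- cross product -/
def cr (p q : P) : ℝ := p.1 * q.2 - p.2 * q.1

/-- the direction with inverse slope `a` -/
def dir (a : ℝ) : P := (a, 1)

/-- X-ray of `K` in direction `dir a` on the line through `x` -/
noncomputable def xr (K : Set P) (a : ℝ) (x : P) : ENNReal := volume {t : ℝ | x + t • dir a ∈ K}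

def SameX (K L : Set P) (a : ℝ) : Prop := ∀ x, xr K a x = xr L a x

def Body (K : Set P) : Prop := IsCompact K ∧ Convex ℝ K ∧ (interior K).Nonempty

/-- two convex bodies with a common interior point -/
def Pair (K L : Set P) : Prop := Body K ∧ Body L ∧ (interior K ∩ interior L).Nonempty

/-- `q - p` is parallel to `dir a` -/
def Par (a : ℝ) (p q : P) : Prop := cr (dir a) (q - p) = 0

/-- `[p,q]` is a chord of `K` through the interior -/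
def Ch (K : Set P) (p q : P) : Prop :=
  p ∈ frontier K ∧ q ∈ frontier K ∧ (1 / 2 : ℝ) • (p + q) ∈ interior K

/-- `K` has a boundary segment parallel to `dir a` -/
def Edge (K : Set P) (a : ℝ) : Prop :=
  ∃ p ∈ K, ∃ q ∈ K, p ≠ q ∧ Par a p q ∧ (1 / 2 : ℝ) • (p + q) ∉ interior K

/-- common boundary points -/
def ZZ (K L : Set P) : Set P := frontier K ∩ frontier L

/-- symmetric difference -/
def Om (K L : Set P) : Set P := (K \ L) ∪ (L \ K)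

/-- area of the part of the symmetric difference strictly to the right of the line `x → y` -/
noncomputable def mu (K L : Set P) (x y : P) : ℝ :=
  (volume (Om K L ∩ {z | cr (y - x) (z - x) < 0})).toReal

noncomputable def MM (K L : Set P) : ℝ := (volume (Om K L)).toReal

/-- no common boundary point strictly to the right of the line `x → y` -/
def Emp (K L : Set P) (x y : P) : Prop := ∀ z ∈ ZZ K L, 0 ≤ cr (y - x) (z - x)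

structure MuP (K L : Set P) : Prop where
  nonneg : ∀ x y, 0 ≤ mu K L x y
  le : ∀ x y, mu K L x y ≤ MM K L
  self : ∀ x, mu K L x x = 0
  symm : ∀ x y, x ≠ y → mu K L x y + mu K L y x = MM K L
  add : ∀ x ∈ ZZ K L, ∀ y ∈ ZZ K L, ∀ z ∈ ZZ K L, 0 < cr (y - x) (z - x) →
    mu K L x z = mu K L x y + mu K L y z
  col : ∀ x ∈ ZZ K L, ∀ y ∈ ZZ K L, ∀ z ∈ ZZ K L, x ≠ y → y ≠ z → x ≠ z →
    cr (y - x) (z - x) = 0 → mu K L x y = 0 ∨ mu K L x y = MM K L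

/-- the chord involution on common boundary points in direction `dir a` -/
structure DirP (K L : Set P) (a : ℝ) (σ : P → P) : Prop where
  maps : ∀ x ∈ ZZ K L, σ x ∈ ZZ K L
  invol : ∀ x ∈ ZZ K L, σ (σ x) = x
  par : ∀ x ∈ ZZ K L, Par a x (σ x)
  ch : ∀ x ∈ ZZ K L, σ x ≠ x → Ch K x (σ x)
  ext : ∀ x ∈ ZZ K L, σ x = x →
    (∀ y ∈ K ∩ L, cr (dir a) (y - x) ≤ 0) ∨ (∀ y ∈ K ∩ L, 0 ≤ cr (dir a) (y - x))
  refl : ∃ m₁ ∈ ZZ K L, ∃ m₂ ∈ ZZ K L, σ m₁ = m₁ ∧ σ m₂ = m₂ ∧ 2 * mu K L m₁ m₂ = MM K L ∧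
    ∀ x ∈ ZZ K L, ∃ k : ℤ, mu K L m₁ x + mu K L m₁ (σ x) = k * MM K L
  gap : ∀ x ∈ ZZ K L, ∀ y ∈ ZZ K L, 0 < mu K L x y → mu K L x y < MM K L → Emp K L x y →
    Emp K L (σ y) (σ x)
  nonfix : ∃ x ∈ ZZ K L, σ x ≠ x

/-- vertical chord structure: `m₁`, `m₂` are the leftmost and rightmost points of `K ∩ L` -/
structure V0 (K L : Set P) (m₁ m₂ : P) : Prop where
  z1 : m₁ ∈ ZZ K L
  z2 : m₂ ∈ ZZ K L
  lt : m₁.1 < m₂.1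
  bd : ∀ y ∈ K ∩ L, m₁.1 ≤ y.1 ∧ y.1 ≤ m₂.1 ∧ (y.1 = m₁.1 → y = m₁) ∧ (y.1 = m₂.1 → y = m₂)
  chord : ∀ x ∈ ZZ K L, m₁.1 < x.1 → x.1 < m₂.1 → ∃ lo hi : ℝ, lo < hi ∧
    (∀ t, (x.1, t) ∈ K ↔ lo ≤ t ∧ t ≤ hi) ∧ (∀ t, (x.1, t) ∈ L ↔ lo ≤ t ∧ t ≤ hi) ∧
    (x.2 = lo ∨ x.2 = hi)

/-- the other end of the vertical chord of `K ∩ L` -/
noncomputable def sig (K L : Set P) (x : P) : P :=
  (x.1, sInf {t : ℝ | (x.1, t) ∈ K ∩ L} + sSup {t : ℝ | (x.1, t) ∈ K ∩ L} - x.2)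

/-- a path of chords with directions alternately `dir a`, `dir b` -/
def Alt (K : Set P) (a b : ℝ) (x : ℕ → P) (N : ℕ) : Prop :=
  ∀ n < N, Ch K (x n) (x (n + 1)) ∧ Par (if Even n then a else b) (x n) (x (n + 1))

/-- periodic points of the chord maps -/
def Per (K : Set P) (a b : ℝ) (p : P) : Prop :=
  ∃ q : ℕ, ∃ x : ℕ → P, 0 < q ∧ x 0 = p ∧ x (2 * q) = p ∧ Alt K a b x (2 * q)

def ConfP (K : Set P) (a b c : ℝ) : Prop :=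
  ∃ p p' : P, Per K a b p ∧ Per K a b p' ∧ Ch K p p' ∧ Par c p p'

def ConfQ (K : Set P) (a b c : ℝ) : Prop :=
  ∃ N : ℕ, ∃ x : ℕ → P, Alt K a b x N ∧ ∃ i j k l : ℕ, i ≤ N ∧ j ≤ N ∧ k ≤ N ∧ l ≤ N ∧
    Even i ∧ Even j ∧ Odd k ∧ Odd l ∧ Ch K (x i) (x j) ∧ Par c (x i) (x j) ∧
    Ch K (x k) (x l) ∧ Par c (x k) (x l)

/-- twice the signed area of a triangle -/
def ar (p q r : P) : ℝ := cr (q - p) (r - p)

/-- an inscribed triangle with a supporting line parallel to the opposite side at each vertex -/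
def Crit (J : Set P) (p q r : P) : Prop :=
  p ∈ J ∧ q ∈ J ∧ r ∈ J ∧ 0 < ar p q r ∧
    ∀ x ∈ J, ar x q r ≤ ar p q r ∧ ar p x r ≤ ar p q r ∧ ar p q x ≤ ar p q r

def ConfT (J : Set P) (a b c : ℝ) : Prop :=
  ∃ p q r : P, Crit J p q r ∧ Par a q r ∧ Par b r p ∧ Par c p q

/-- horizontal slice of a set in 3-space -/
def sl (K : Set (P × ℝ)) (z : ℝ) : Set P := {p | (p, z) ∈ K}

/-- `z` is strictly between two levels of `K` -/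
def Lev (K : Set (P × ℝ)) (z : ℝ) : Prop := (∃ w ∈ K, w.2 < z) ∧ (∃ w ∈ K, z < w.2)

def Body3 (K : Set (P × ℝ)) : Prop := IsCompact K ∧ Convex ℝ K ∧ (interior K).Nonempty

/-! ### The pieces -/

def S_mu : Prop := ∀ K L : Set P, Pair K L → MuP K L

def S_v0 : Prop := ∀ K L : Set P, Pair K L → SameX K L 0 → ¬ Edge K 0 → ∃ m₁ m₂, V0 K L m₁ m₂

def S_va : Prop := ∀ (K L : Set P) (m₁ m₂ : P), Pair K L → MuP K L → ¬ Edge K 0 → V0 K L m₁ m₂ →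
  (∀ x ∈ ZZ K L, sig K L x ∈ ZZ K L) ∧ (∀ x ∈ ZZ K L, sig K L (sig K L x) = x) ∧
  (∀ x ∈ ZZ K L, sig K L x ≠ x → Ch K x (sig K L x)) ∧
  (∀ x ∈ ZZ K L, sig K L x = x ↔ (x = m₁ ∨ x = m₂)) ∧
  (∀ x ∈ ZZ K L, ∀ y ∈ ZZ K L, 0 < mu K L x y → mu K L x y < MM K L → Emp K L x y →
    Emp K L (sig K L y) (sig K L x))

def S_gap : Prop := ∀ (K L : Set P) (m₁ m₂ : P), Pair K L → MuP K L → SameX K L 0 →
  V0 K L m₁ m₂ → K ≠ L →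
  ∃ x ∈ ZZ K L, ∃ y ∈ ZZ K L, 0 < mu K L x y ∧ mu K L x y < MM K L ∧ Emp K L x y

def S_vb : Prop := ∀ (K L : Set P) (m₁ m₂ : P), Pair K L → MuP K L → SameX K L 0 →
  V0 K L m₁ m₂ → 2 * mu K L m₁ m₂ = MM K L ∧
    ∀ (s lo hi : ℝ), m₁.1 < s → s < m₂.1 → lo < hi → (∀ t, (s, t) ∈ K ↔ lo ≤ t ∧ t ≤ hi) →
      (∀ t, (s, t) ∈ L ↔ lo ≤ t ∧ t ≤ hi) → mu K L (s, hi) m₁ = mu K L m₁ (s, lo)

def S_mom : Prop := ∀ (K L : Set P) (a b : ℝ), IsCompact K → IsCompact L → a ≠ b →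
  SameX K L a → SameX K L b →
  volume K = volume L ∧ (∫ p in K, p.1) = (∫ p in L, p.1) ∧ (∫ p in K, p.2) = (∫ p in L, p.2)

def S_nf : Prop := ∀ (K L : Set P) (m₁ m₂ : P), Pair K L → SameX K L 0 → V0 K L m₁ m₂ →
  (∫ p in K, p.2) = (∫ p in L, p.2) → ∃ x ∈ ZZ K L, m₁.1 < x.1 ∧ x.1 < m₂.1

def S_G : Prop := ∀ (K : Set P) (D : ℝ), IsCompact K → Convex ℝ K → 0 < D →
  K ⊆ Metric.closedBall 0 D → 0 < (volume K).toReal →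
  Metric.closedBall (((volume K).toReal)⁻¹ • ((∫ p in K, p.1, ∫ p in K, p.2) : P))
    ((volume K).toReal / (64 * D)) ⊆ K

def S_E : Prop := ∀ K : Set P, Body K → {a : ℝ | Edge K a}.Countable

def S_5 : Prop := ∀ (K L : Set P) (a : Fin 3 → ℝ) (σ : Fin 3 → P → P), IsClosed K → IsClosed L →
  MuP K L → a 0 < a 1 → a 1 < a 2 → (∀ i, DirP K L (a i) (σ i)) →
  (∃ x ∈ ZZ K L, ∃ y ∈ ZZ K L, 0 < mu K L x y ∧ mu K L x y < MM K L ∧ Emp K L x y) →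
  ConfT (K ∩ L) (a 0) (a 1) (a 2) ∨ ∃ i j k : Fin 3, i ≠ j ∧ j ≠ k ∧ i ≠ k ∧
    (ConfP K (a i) (a j) (a k) ∨ ConfQ K (a i) (a j) (a k))

/-- the purely combinatorial part of `S_5` -/
def S_5c : Prop := ∀ (X : Type) (p : ℤ → X) (n : ℕ) (α : Fin 3 → ℤ) (σ : Fin 3 → X → X), 0 < n →
  (∀ i j : ℤ, p i = p j ↔ (2 * (n : ℤ)) ∣ (i - j)) →
  (∀ (i : Fin 3) (j : ℤ), σ i (p j) = p (2 * α i - j)) →
  (∀ i j : Fin 3, i ≠ j → ¬ (n : ℤ) ∣ (α i - α j)) →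
  (∃ j₀ j₁ j₂ : ℤ, p j₁ ≠ p j₂ ∧ σ 0 (p j₀) = p j₀ ∧ σ 1 (p j₁) = p j₁ ∧ σ 2 (p j₂) = p j₂ ∧
      σ 0 (p j₁) = p j₂ ∧ σ 1 (p j₂) = p j₀ ∧ σ 2 (p j₀) = p j₁) ∨
  ∃ i j k : Fin 3, i ≠ j ∧ j ≠ k ∧ i ≠ k ∧
    ((∃ x y : ℕ → ℤ, (∀ m, p (x (m + 1)) = σ (if Even m then i else j) (p (x m)) ∧
          p (x (m + 1)) ≠ p (x m)) ∧
        (∀ m, p (y (m + 1)) = σ (if Even m then i else j) (p (y m)) ∧ p (y (m + 1)) ≠ p (y m)) ∧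
        p (x (2 * n)) = p (x 0) ∧ p (y (2 * n)) = p (y 0) ∧
        p (y 0) = σ k (p (x 0)) ∧ p (y 0) ≠ p (x 0)) ∨
     (∃ (N : ℕ) (x : ℕ → ℤ), (∀ m < N, p (x (m + 1)) = σ (if Even m then i else j) (p (x m)) ∧
          p (x (m + 1)) ≠ p (x m)) ∧
        ∃ e e' o o' : ℕ, e ≤ N ∧ e' ≤ N ∧ o ≤ N ∧ o' ≤ N ∧ Even e ∧ Even e' ∧ Odd o ∧ Odd o' ∧
          p (x e') = σ k (p (x e)) ∧ p (x e') ≠ p (x e) ∧
          p (x o') = σ k (p (x o)) ∧ p (x o') ≠ p (x o)))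

/-- boundary displacement lemma -/
def S_D : Prop := ∀ (K : Set P) (p e e' : P), Convex ℝ K → IsClosed K → p ∈ frontier K →
  p + e ∈ interior K → p + e' ∈ interior K →
  ∃ c > (0 : ℝ), ∃ ρ > (0 : ℝ), ∀ x ∈ frontier K, ∀ y ∈ frontier K, dist x p < ρ → dist y p < ρ →
    (c * ‖y - x‖ ≤ cr e (y - x) ∧ c * ‖y - x‖ ≤ cr e' (y - x)) ∨
    (cr e (y - x) ≤ -(c * ‖y - x‖) ∧ cr e' (y - x) ≤ -(c * ‖y - x‖))

def S_Q : Prop := ∀ (K : Set P) (a b : ℝ), Body K → {c : ℝ | ConfQ K a b c}.Countable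

def S_R : Prop := ∀ (K : Set P) (a : ℝ), Body K → ∃ g : ℕ → ℝ → P × ℝ,
  (∀ n, ∃ C : NNReal, LipschitzWith C (g n)) ∧ ∀ b p, Per K a b p → ∃ n s, g n s = (p, b)

def S_N : Prop := ∀ (g h : ℝ → P × ℝ) (C : NNReal), LipschitzWith C g → LipschitzWith C h →
  volume {w : ℝ × ℝ | ∃ s t, (g s).2 = w.1 ∧ (h t).2 = w.1 ∧ (g s).1 ≠ (h t).1 ∧
    Par w.2 (g s).1 (h t).1} = 0

def S_H : Prop := ∀ S : Set (ℝ × (ℝ × ℝ)),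
  (∀ u ∈ S, ∀ ε > (0 : ℝ), ∃ ρ > (0 : ℝ), ∀ v ∈ S, u.1 ≤ v.1 → v.1 < u.1 + ρ →
    dist u.2 v.2 ^ 2 ≤ ε * (v.1 - u.1)) → volume (Prod.snd '' S) = 0

def S_CrA : Prop := ∀ (K : Set (P × ℝ)) (τ : ℝ), IsCompact K → Convex ℝ K →
  volume {β : ℝ × ℝ | ∃ (z ρ : ℝ) (p q r : P), Lev K z ∧ ρ ≠ 0 ∧ Crit (sl K z) p q r ∧
    r - q = ρ • ((1 + β.1, β.2 + τ) : P) ∧ p - r = ρ • ((β.2 - τ, 1 - β.1) : P)} = 0

/-- slices: interior, lower semicontinuity, closedness of critical triangles -/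
def S_sl : Prop := ∀ K : Set (P × ℝ), IsCompact K → Convex ℝ K →
  (∀ z, Lev K z → ∀ p, p ∈ interior (sl K z) → (p, z) ∈ interior K) ∧
  ((interior K).Nonempty → ∀ z, Lev K z → (interior (sl K z)).Nonempty) ∧
  (∀ z, Lev K z → ∀ x ∈ sl K z, ∀ ε > (0 : ℝ), ∃ δ > (0 : ℝ), ∀ z', |z' - z| < δ →
    ∃ x' ∈ sl K z', dist x' x < ε) ∧
  (∀ (z : ℕ → ℝ) (p q r : ℕ → P) (z₀ : ℝ) (p₀ q₀ r₀ : P), Lev K z₀ → Tendsto z atTop (𝓝 z₀) →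
    Tendsto p atTop (𝓝 p₀) → Tendsto q atTop (𝓝 q₀) → Tendsto r atTop (𝓝 r₀) →
    (∀ n, Crit (sl K (z n)) (p n) (q n) (r n)) → 0 < ar p₀ q₀ r₀ → Crit (sl K z₀) p₀ q₀ r₀)

def S_Cr : Prop := ∀ K : Set (P × ℝ), IsCompact K → Convex ℝ K →
  ∀ᵐ a : Fin 3 → ℝ, a 0 < 0 → 0 < a 1 → a 1 < a 2 →
    ∀ z, Lev K z → ¬ ConfT (sl K z) (a 0) (a 1) (a 2)

def S_M : Prop := ∀ K : Set (P × ℝ), Body3 K →
  MeasurableSet {w : ℝ × ℝ | Lev K w.2 ∧ Edge (sl K w.2) w.1} ∧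
  MeasurableSet {w : (ℝ × ℝ × ℝ) × ℝ | Lev K w.2 ∧ ConfP (sl K w.2) w.1.1 w.1.2.1 w.1.2.2} ∧
  MeasurableSet {w : (ℝ × ℝ × ℝ) × ℝ | Lev K w.2 ∧ ConfQ (sl K w.2) w.1.1 w.1.2.1 w.1.2.2}

def S_F : Prop := ∀ K : Set (P × ℝ), Body3 K →
  ∀ᵐ a : Fin 3 → ℝ, ∀ᵐ z : ℝ, Lev K z → (∀ i, ¬ Edge (sl K z) (a i)) ∧
    ∀ i j k : Fin 3, i ≠ j → j ≠ k → i ≠ k →
      ¬ ConfP (sl K z) (a i) (a j) (a k) ∧ ¬ ConfQ (sl K z) (a i) (a j) (a k)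

/-- the planar structure theorem -/
def S_S : Prop := ∀ (K L : Set P) (a : Fin 3 → ℝ), Pair K L → a 0 < a 1 → a 1 < a 2 →
  (∀ i, SameX K L (a i)) → (∀ i, ¬ Edge K (a i)) → K ≠ L →
  ConfT (K ∩ L) (a 0) (a 1) (a 2) ∨ ∃ i j k : Fin 3, i ≠ j ∧ j ≠ k ∧ i ≠ k ∧
    (ConfP K (a i) (a j) (a k) ∨ ConfQ K (a i) (a j) (a k))

def S_main : Prop := ∀ K : Set (P × ℝ), Body3 K → ∃ a : Fin 3 → ℝ, ∀ L : Set (P × ℝ), Body3 L →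
  (∀ i z, SameX (sl K z) (sl L z) (a i)) → L = K

end Pool.Agent.H411Z.XR
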